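import Mathlib
import Pool.Agent.Run7.h207.GC.Iface

/-! Project GC (helper207), piece TRANS: transitivity of the relation between orderings. -/

set_option autoImplicit false
set_option linter.all false

namespace Pool.Agent.Run7.h834.GC

open Finset Matrix Pool.Agent.Run7.h207.GC

lemma orth_of_mem {V : Type} {H : SimpleGraph V} {d : ℕ} {w : V → Fin d → ℝ} {l l' : List V}
    (h : Orth H w l) (hs : ∀ i ∈ l', i ∈ l) : Orth H w l' :=
  fun i hi j hj hij => h i (hs i hi) j (hs j hj) hij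

lemma mem_im {V : Type} {H : SimpleGraph V} {d : ℕ} {Im : List V → Set (V → Fin d → ℝ)}
    (hI : IsIm H d Im) : ∀ (l : List V), l.Nodup → ∀ w : V → Fin d → ℝ, Reg H w l → w ∈ Im l := by
  intro l
  induction l with
  | nil => intro _ w _; exact hI.nil w
  | cons i l ih =>
    intro hn w hw
    obtain ⟨ho, hl, hli⟩ := hw
    have hn' := List.nodup_cons.mp hn
    have h1 : w ∈ Im l := ih hn'.2 w ⟨orth_of_mem ho (fun j hj => List.mem_cons_of_mem _ hj), hl⟩
    apply hI.step i l w hn'.1 h1 hli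
    intro j hj hij
    exact ho i List.mem_cons_self j (List.mem_cons_of_mem _ hj) hij

theorem t_TRANS : J_IM → J_PC → J_TRANS := by
  intro hIM hPC V H d l₁ l₂ l₃ hn h12 h23 hw hv
  obtain ⟨w, hw1, hw2⟩ := hw
  obtain ⟨v, hv2, hv3⟩ := hv
  obtain ⟨Im, hI⟩ := hIM V H d
  have hn2 : l₂.Nodup := h12.nodup_iff.mp hn
  have hP := hPC V d
  obtain ⟨u, hu, hu1, hu3⟩ := hI.irr l₂ (fun w => LIC H w l₁) (fun w => LIC H w l₃)
    (hP.2.1 H l₁) (hP.2.1 H l₃)
    ⟨w, mem_im hI l₂ hn2 w hw2, hw1.2⟩ ⟨v, mem_im hI l₂ hn2 v hv2, hv3.2⟩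
  have ho := hI.orth l₂ u hn2 hu
  exact ⟨u, ⟨orth_of_mem ho (fun i hi => h12.mem_iff.mp hi), hu1⟩,
    ⟨orth_of_mem ho (fun i hi => h23.symm.mem_iff.mp hi), hu3⟩⟩

end Pool.Agent.Run7.h834.GC
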